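import Pool.Agent.H61.SA.Prm
import Pool.Agent.H85.SB.Snd

/-! # [H61 SB] The bound `PhiS` is primitive recursive -/

namespace Pool.Agent.H61.SB

open Pool.Agent.H61.SA Pool.Agent.H85.SA Pool.Agent.H85.SB

theorem prim_E3 {r s m M t w kp : ℕ → ℕ} (hr : Primrec r) (hs : Primrec s) (hm : Primrec m) (hM : Primrec M)
    (ht : Primrec t) (hw : Primrec w) (hk : Primrec kp) :
    Primrec fun n => E3 (r n) (s n) (m n) (M n) (t n) (w n) (kp n) := by
  unfold E3
  exact prim_mul (Primrec.const 1000) (prim_pow (prim_add (prim_add (prim_add (prim_add (prim_add (prim_add (prim_add hr hs)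
    hm) hM) ht) hw) hk) (Primrec.const 2)) (Primrec.const 12))

theorem prim_ES : Primrec ES := by
  have h : Primrec fun Z : ℕ => E3 Z Z Z (2 * Z + 1) Z (2 * Z + 1) Z :=
    prim_E3 Primrec.id Primrec.id Primrec.id (prim_add (prim_mul (Primrec.const 2) Primrec.id) (Primrec.const 1))
      Primrec.id (prim_add (prim_mul (Primrec.const 2) Primrec.id) (Primrec.const 1)) Primrec.id
  exact h

theorem prim_PhiS : Primrec PhiS := by
  have h : Primrec fun Z : ℕ => (Z + 1) ^ 5 * TT Z ^ (6 * ES Z * Z + 5 * Z + 2) :=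
    prim_mul (prim_pow (prim_add Primrec.id (Primrec.const 1)) (Primrec.const 5)) (prim_pow prim_TT
      (prim_add (prim_add (prim_mul (prim_mul (Primrec.const 6) prim_ES) Primrec.id)
        (prim_mul (Primrec.const 5) Primrec.id)) (Primrec.const 2)))
  exact h

end Pool.Agent.H61.SB
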